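import Pool.Agent.X11.TMFib

/-!
# Question Q1 of MP_36a07b_nt: `h_{2^{2n}-3}` divides `h_{2(2^{2n}-3)}`
-/

namespace Pool.Agent.Results.MP_36a07b_nt.EvenExponent

/-- `t_n = (-1)^{s_2(n)}`, with `s_2(n)` the sum of the binary digits of `n`. -/
def t (n : ℕ) : ℤ := (-1) ^ (Nat.digits 2 n).sum

/-- `h_0 = 0`, `h_1 = 1`, `h_n = t_n h_{n-1} + h_{n-2}` for `n ≥ 2`. -/
def h : ℕ → ℤ
  | 0 => 0
  | 1 => 1
  | (n + 2) => t (n + 2) * h (n + 1) + h n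

lemma h_eq (n : ℕ) : h n = X11.TMFib.h n ∧ h (n + 1) = X11.TMFib.h (n + 1) := by
  induction n with
  | zero => constructor <;> rfl
  | succ n ih => exact ⟨ih.2, by rw [h, X11.TMFib.h, ih.1, ih.2]; rfl⟩

open X11.TMFib in
theorem result (n : ℕ) (hn : 1 ≤ n) : h (2 ^ (2 * n) - 3) ∣ h (2 * (2 ^ (2 * n) - 3)) := by
  rw [(h_eq _).1, (h_eq (2 * (2 ^ (2 * n) - 3))).1]
  obtain ⟨m, rfl⟩ : ∃ m, n = m + 1 := ⟨n - 1, by omega⟩
  rcases Nat.eq_zero_or_pos m with rfl | hm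
  · exact one_dvd _
  have e1 : 2 * (m + 1) = (2 * m + 1) + 1 := by ring
  have e2 : 2 * (2 ^ (2 * m + 1 + 1) - 3) = 2 ^ (2 * m + 2 + 1) - 6 := by
    have : 2 ^ (2 * m + 2 + 1) = 2 * 2 ^ (2 * m + 1 + 1) := by ring
    omega
  rw [e1, e2, h_six (2 * m + 2) (by omega), h_three (2 * m + 2) (by omega),
    h_three (2 * m + 1) (by omega)]
  have s1 : (-1 : ℤ) ^ (2 * m + 2 + 1) = -1 := by
    rw [pow_succ, pow_add, pow_mul]; norm_num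
  have s2 : (-1 : ℤ) ^ (2 * m + 1 + 1) = 1 := by
    rw [pow_succ, pow_add, pow_mul]; norm_num
  rw [s1, s2]
  have hW : W (2 * m + 2) = W ((2 * m + 1) + 1) := rfl
  rcases hW2 : W (2 * m + 1) with ⟨a, b, c, d⟩
  rw [hW, W_succ hW2]
  simp only
  exact ⟨a - d, by ring⟩

end Pool.Agent.Results.MP_36a07b_nt.EvenExponent
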