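import Pool.Agent.X11.TMFib

/-!
# Question Q2 of MP_36a07b_nt: `h_{2(2^k-3)} ≡ -2` modulo `h_{2^k-3}` for odd `k ≥ 3`
-/

namespace Pool.Agent.Results.MP_36a07b_nt.OddExponent

/-- `t_n = (-1)^{s_2(n)}`, with `s_2(n)` the sum of the binary digits of `n`. -/
def t (n : ℕ) : ℤ := (-1) ^ (Nat.digits 2 n).sum

/-- `h_0 = 0`, `h_1 = 1`, `h_n = t_n h_{n-1} + h_{n-2}` for `n ≥ 2`. -/
def h : ℕ → ℤ
  | 0 => 0
  | 1 => 1
  | (n + 2) => t (n + 2) * h (n + 1) + h n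

lemma h_eq (n : ℕ) : h n = X11.TMFib.h n ∧ h (n + 1) = X11.TMFib.h (n + 1) := by
  induction n with
  | zero => constructor <;> rfl
  | succ n ih => exact ⟨ih.2, by rw [h, X11.TMFib.h, ih.1, ih.2]; rfl⟩

open X11.TMFib in
theorem result (k : ℕ) (hk : Odd k) (hk3 : 3 ≤ k) :
    h (2 * (2 ^ k - 3)) ≡ -2 [ZMOD h (2 ^ k - 3)] := by
  rw [(h_eq _).1, (h_eq (2 * (2 ^ k - 3))).1]
  obtain ⟨m, rfl⟩ := hk
  obtain ⟨l, rfl⟩ : ∃ l, m = l + 1 := ⟨m - 1, by omega⟩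
  have e1 : 2 * (l + 1) + 1 = (2 * l + 2) + 1 := by ring
  have e2 : 2 * (2 ^ (2 * l + 2 + 1) - 3) = 2 ^ (2 * l + 3 + 1) - 6 := by
    have : 2 ^ (2 * l + 3 + 1) = 2 * 2 ^ (2 * l + 2 + 1) := by ring
    omega
  rw [e1, e2, h_six (2 * l + 3) (by omega), h_three (2 * l + 3) (by omega),
    h_three (2 * l + 2) (by omega)]
  have s1 : (-1 : ℤ) ^ (2 * l + 3 + 1) = 1 := by
    rw [pow_succ, pow_add, pow_mul]; norm_num
  have s2 : (-1 : ℤ) ^ (2 * l + 2 + 1) = -1 := by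
    rw [pow_succ, pow_add, pow_mul]; norm_num
  rw [s1, s2]
  have hdet := W_det (2 * l + 2)
  have hW : W (2 * l + 3) = W ((2 * l + 2) + 1) := rfl
  rcases hW2 : W (2 * l + 2) with ⟨a, b, c, d⟩
  rw [hW2] at hdet
  simp only at hdet
  rw [hW, W_succ hW2]
  simp only
  apply Int.ModEq.symm
  rw [Int.modEq_iff_dvd]
  refine ⟨-(a - d) , ?_⟩
  linear_combination (-2 : ℤ) * hdet

end Pool.Agent.Results.MP_36a07b_nt.OddExponent
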